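import Pool.Agent.H.MP_b10ab5_co.Defs

set_option autoImplicit false

namespace Pool.Agent.H.MP_b10ab5_co

open Finset MvPolynomial

variable {V E : Type} [Fintype E] [DecidableEq E] [DecidableEq V]

noncomputable def ind (X : Finset E) : E →₀ ℕ := ∑ g ∈ X, Finsupp.single g 1

omit [Fintype E] in
theorem ind_apply (X : Finset E) (g : E) : ind X g = if g ∈ X then 1 else 0 := by
  simp [ind, Finsupp.finsetSum_apply, Finsupp.single_apply]

omit [Fintype E] in
theorem y_eq (X : Finset E) : y X = monomial (ind X) 1 := by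
  induction X using Finset.induction_on with
  | empty => simp [y, ind]
  | insert a s ha ih =>
    unfold y ind at *
    rw [prod_insert ha, sum_insert ha, ih, MvPolynomial.X, monomial_mul]; simp

omit [Fintype E] in
theorem ind_iff {X Y Q U : Finset E} (h : Q ⊆ U) :
    ind X + ind Y = ind Q + ind U ↔ (Q ⊆ X ∧ X ⊆ U) ∧ Y = Q ∪ (U \ X) := by
  constructor
  · intro hh
    have k : ∀ g, (if g ∈ X then 1 else 0) + (if g ∈ Y then 1 else 0) =
        (if g ∈ Q then 1 else 0) + (if g ∈ U then 1 else 0) := by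
      intro g
      have := DFunLike.congr_fun hh g
      simpa only [Finsupp.add_apply, ind_apply] using this
    refine ⟨⟨fun g hg => ?_, fun g hg => ?_⟩, ?_⟩
    · have := k g; have h2 := h hg
      by_contra hx
      rw [if_neg hx, if_pos hg, if_pos h2] at this
      split_ifs at this <;> omega
    · have := k g
      by_contra hu
      have hq : g ∉ Q := fun hq => hu (h hq)
      rw [if_pos hg, if_neg hq, if_neg hu] at this
      omega
    · ext g
      have := k g
      have h2 := @h g
      simp only [mem_union, mem_sdiff]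
      by_cases a : g ∈ X <;> by_cases b : g ∈ Y <;> by_cases c : g ∈ Q <;> by_cases d : g ∈ U <;>
        simp [a, b, c, d] at this h2 ⊢
  · rintro ⟨⟨h1, h2⟩, rfl⟩
    ext g
    have a1 := @h1 g
    have a2 := @h2 g
    simp only [Finsupp.add_apply, ind_apply, mem_union, mem_sdiff]
    by_cases a : g ∈ X <;> by_cases c : g ∈ Q <;> by_cases d : g ∈ U <;>
        simp [a, c, d] at a1 a2 ⊢

omit [Fintype E] in
theorem coeff_yy (a b : ℤ) (X Y : Finset E) {Q U : Finset E} (h : Q ⊆ U) :
    coeff (ind Q + ind U) (C a * y X * (C b * y Y)) =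
      if (Q ⊆ X ∧ X ⊆ U) ∧ Y = Q ∪ (U \ X) then a * b else 0 := by
  have : C a * y X * (C b * y Y) = monomial (ind X + ind Y) (a * b) := by
    rw [y_eq, y_eq, C_mul_monomial, C_mul_monomial, monomial_mul]; simp
  rw [this, coeff_monomial]
  simp only [ind_iff h]

noncomputable def pol (a : Finset E → ℤ) : MvPolynomial E ℤ := ∑ X, C (a X) * y X

theorem coeff_pol (a b : Finset E → ℤ) {Q U : Finset E} (h : Q ⊆ U) :
    coeff (ind Q + ind U) (pol a * pol b) =
      ∑ X, if Q ⊆ X ∧ X ⊆ U then a X * b (Q ∪ (U \ X)) else 0 := by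
  unfold pol
  rw [sum_mul_sum, coeff_sum]
  refine sum_congr rfl fun X _ => ?_
  rw [coeff_sum]
  simp only [coeff_yy _ _ _ _ h]
  by_cases hx : Q ⊆ X ∧ X ⊆ U
  · simp [hx]
  · simp only [hx, false_and, if_false, sum_const_zero]

omit [Fintype E] in
theorem pderiv_y (e : E) (X : Finset E) :
    pderiv e (y X) = if e ∈ X then y (X.erase e) else 0 := by
  have h0 : ∀ Z : Finset E, e ∉ Z → pderiv e (y Z) = 0 := by
    intro Z hZ
    rw [y_eq, pderiv_monomial, ind_apply, if_neg hZ]; simp
  split_ifs with h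
  · have : y X = MvPolynomial.X e * y (X.erase e) := by
      unfold y; rw [mul_prod_erase _ _ h]
    rw [this, Derivation.leibniz, h0 _ (notMem_erase e X)]; simp
  · exact h0 X h

def dd (e : E) (a : Finset E → ℤ) : Finset E → ℤ := fun X => if e ∈ X then 0 else a (insert e X)

theorem pderiv_pol (e : E) (a : Finset E → ℤ) : pderiv e (pol a) = pol (dd e a) := by
  unfold pol dd
  rw [map_sum]
  have h1 : ∀ X : Finset E, pderiv e (C (a X) * y X) =
      if e ∈ X then C (a X) * y (X.erase e) else 0 := by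
    intro X
    rw [pderiv_C_mul, pderiv_y]; split_ifs <;> simp
  have h2 : ∀ X : Finset E, C (if e ∈ X then 0 else a (insert e X)) * y X =
      if e ∉ X then C (a (insert e X)) * y X else 0 := by
    intro X; by_cases h : e ∈ X <;> simp [h]
  simp only [h1, h2]
  rw [← sum_filter, ← sum_filter]
  refine sum_bij' (fun X _ => X.erase e) (fun X _ => insert e X) ?_ ?_ ?_ ?_ ?_
  · intro X _; simp
  · intro X _; simp
  · intro X hX; exact insert_erase (mem_filter.1 hX).2
  · intro X hX; exact erase_insert (mem_filter.1 hX).2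
  · intro X hX; rw [insert_erase (mem_filter.1 hX).2]

open Classical in
noncomputable def fi (ends : E → V × V) : Finset E → ℤ :=
  fun X => if IsForest ends X then 1 else 0

theorem forestPoly_eq (ends : E → V × V) : forestPoly ends = pol (fi ends) := by
  unfold forestPoly pol fi
  rw [sum_filter]
  refine sum_congr rfl fun X _ => ?_
  split_ifs <;> simp

theorem coeff_ray (ends : E → V × V) (e f : E) {Q U : Finset E} (h : Q ⊆ U) :
    coeff (ind Q + ind U) (rayleigh ends e f) =
      ∑ X, if Q ⊆ X ∧ X ⊆ U then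
        dd e (fi ends) X * dd f (fi ends) (Q ∪ (U \ X)) -
          fi ends X * dd e (dd f (fi ends)) (Q ∪ (U \ X)) else 0 := by
  unfold rayleigh
  rw [forestPoly_eq, pderiv_pol, pderiv_pol, pderiv_pol, coeff_sub, coeff_pol _ _ h,
    coeff_pol _ _ h, ← sum_sub_distrib]
  refine sum_congr rfl fun X _ => ?_
  split_ifs <;> simp

omit [Fintype E] in
theorem coeff_sq (S : Finset E) (T : Finset (Finset E × Finset E)) (c : Finset E → ℤ)
    (hT : ∀ p ∈ T, S ⊆ p.1) {Q U : Finset E} (h : Q ⊆ U) :
    coeff (ind Q + ind U) (y S * (∑ p ∈ T, C (c p.2) * y (p.1 \ S)) ^ 2) =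
      ∑ p ∈ T, ∑ q ∈ T, if (Q ⊆ p.1 ∧ p.1 ⊆ U) ∧ q.1 \ S = Q ∪ (U \ p.1) then c p.2 * c q.2
        else 0 := by
  rw [sq, ← mul_assoc, mul_sum T _ (y S), sum_mul_sum, coeff_sum]
  refine sum_congr rfl fun p hp => ?_
  rw [coeff_sum]
  refine sum_congr rfl fun q _ => ?_
  have : y S * (C (c p.2) * y (p.1 \ S)) = C (c p.2) * y p.1 := by
    unfold y
    rw [← prod_sdiff (hT p hp)]; ring
  rw [this, coeff_yy _ _ _ _ h]

end Pool.Agent.H.MP_b10ab5_co
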