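import Pool.Agent.H.MP_b10ab5_co.A
import Pool.Agent.Lib.helper1.Mask

set_option autoImplicit false
set_option maxRecDepth 100000

namespace Pool.Agent.H.MP_b10ab5_co

open Finset MvPolynomial Pool.Agent.Lib.helper1.Mask

def ends : Fin 12 → Fin 8 × Fin 8 :=
  ![(0,1),(1,2),(2,3),(3,4),(4,5),(5,6),(6,7),(7,0),(0,4),(1,5),(2,6),(3,7)]

def L2 : List ℕ :=
  [255, 271, 496, 542, 737, 785, 1006, 1084, 1219, 1331, 1484, 1570, 1757, 1837, 2002, 2168,
  2183, 2423, 2440, 2662, 2713, 2921, 2966, 3140, 3259, 3403, 3508, 3674, 3749, 3925, 4010]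

def cy : List ℕ :=
  [255, 271, 496, 542, 737, 785, 1006, 1084, 1219, 1331, 1484, 1570, 1757, 1837, 2002, 2168,
  2183, 2423, 2440, 2662, 2713, 2921, 2966, 3140, 3259, 3403, 3508, 3674, 3749]

def P1 : List (ℕ × ℕ) :=
  [(238, 255), (768, 785), (770, 785), (772, 785), (774, 785), (776, 785), (778, 785), (780,
  785), (800, 785), (802, 785), (804, 785), (806, 785), (808, 785), (810, 785), (812, 785),
  (832, 785), (834, 785), (836, 785), (838, 785), (840, 785), (842, 785), (844, 785), (864,
  785), (866, 785), (868, 785), (870, 785), (872, 785), (874, 785), (876, 785), (896, 785),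
  (898, 785), (900, 785), (902, 785), (904, 785), (906, 785), (908, 785), (928, 785), (930,
  785), (932, 785), (934, 785), (936, 785), (938, 785), (940, 785), (960, 785), (962, 785),
  (964, 785), (966, 785), (968, 785), (970, 785), (972, 785), (1314, 1331), (1318, 1331),
  (1322, 1331), (1378, 1331), (1382, 1331), (1386, 1331), (1442, 1331), (1446, 1331), (1450,
  1331), (1740, 1757), (1792, 785), (1794, 785), (1796, 785), (1798, 785), (1800, 785), (1802,
  785), (1804, 785), (1824, 785), (1828, 785), (1832, 785), (1856, 785), (1858, 785), (1860,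
  785), (1862, 785), (1864, 785), (1866, 785), (1868, 785), (1888, 785), (1892, 785), (1896,
  785), (1920, 785), (1922, 785), (1924, 785), (1926, 785), (1928, 785), (1930, 785), (1932,
  785), (1952, 785), (1956, 785), (1960, 785), (1984, 785), (1988, 785), (1992, 785), (2406,
  2423), (2696, 2713), (2698, 2713), (2700, 2713), (2728, 2713), (2730, 2713), (2732, 2713),
  (2760, 2713), (2762, 2713), (2764, 2713), (2816, 785), (2818, 785), (2820, 785), (2822, 785),
  (2824, 785), (2826, 785), (2828, 785), (2848, 785), (2850, 785), (2852, 785), (2854, 785),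
  (2856, 785), (2858, 785), (2860, 785), (2880, 785), (2882, 785), (2884, 785), (2886, 785),
  (2888, 785), (2890, 785), (2892, 785), (2912, 785), (2914, 785), (2916, 785), (2944, 785),
  (2946, 785), (2948, 785), (2976, 785), (2978, 785), (2980, 785), (3008, 785), (3010, 785),
  (3012, 785), (3242, 3259), (3362, 1331), (3366, 1331), (3370, 1331), (3426, 1331), (3490,
  1331), (3720, 2713), (3722, 2713), (3724, 2713), (3752, 2713), (3784, 2713), (3840, 785),
  (3842, 785), (3844, 785), (3846, 785), (3848, 785), (3850, 785), (3852, 785), (3872, 785),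
  (3876, 785), (3880, 785), (3904, 785), (3906, 785), (3912, 785), (3936, 785), (3968, 785),
  (3970, 785), (3972, 785), (4000, 785), (4032, 785)]

def P0 : List (ℕ × ℕ) :=
  [(238, 255), (494, 255), (750, 255), (768, 785), (770, 785), (772, 785), (774, 785), (776,
  785), (778, 785), (780, 785), (782, 785), (800, 785), (802, 785), (804, 785), (806, 785),
  (808, 785), (810, 785), (812, 785), (814, 785), (832, 785), (834, 785), (836, 785), (838,
  785), (840, 785), (842, 785), (844, 785), (846, 785), (864, 785), (866, 785), (868, 785),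
  (870, 785), (872, 785), (874, 785), (876, 785), (878, 785), (896, 785), (898, 785), (900,
  785), (902, 785), (904, 785), (906, 785), (908, 785), (910, 785), (928, 785), (930, 785),
  (932, 785), (934, 785), (936, 785), (938, 785), (940, 785), (942, 785), (960, 785), (962,
  785), (964, 785), (966, 785), (968, 785), (970, 785), (972, 785), (974, 785), (992, 785),
  (994, 785), (996, 785), (998, 785), (1000, 785), (1002, 785), (1004, 785), (1262, 255),
  (1314, 1331), (1318, 1331), (1322, 1331), (1326, 1331), (1378, 1331), (1382, 1331), (1386,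
  1331), (1390, 1331), (1442, 1331), (1446, 1331), (1450, 1331), (1454, 1331), (1506, 1331),
  (1510, 1331), (1514, 1331), (1740, 1757), (1742, 1757), (1772, 1757), (1792, 785), (1794,
  785), (1796, 785), (1798, 785), (1800, 785), (1802, 785), (1804, 785), (1806, 785), (1824,
  785), (1828, 785), (1832, 785), (1836, 785), (1856, 785), (1858, 785), (1860, 785), (1862,
  785), (1864, 785), (1866, 785), (1868, 785), (1870, 785), (1888, 785), (1892, 785), (1896,
  785), (1900, 785), (1920, 785), (1922, 785), (1924, 785), (1926, 785), (1928, 785), (1930,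
  785), (1932, 785), (1934, 785), (1952, 785), (1956, 785), (1960, 785), (1964, 785), (1984,
  785), (1986, 785), (1988, 785), (1990, 785), (1992, 785), (1994, 785), (2016, 785), (2020,
  785), (2024, 785), (2286, 255), (2406, 2423), (2414, 2423), (2534, 2423), (2696, 2713),
  (2698, 2713), (2700, 2713), (2702, 2713), (2728, 2713), (2730, 2713), (2732, 2713), (2734,
  2713), (2760, 2713), (2762, 2713), (2764, 2713), (2766, 2713), (2792, 2713), (2794, 2713),
  (2796, 2713), (2816, 785), (2818, 785), (2820, 785), (2822, 785), (2824, 785), (2826, 785),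
  (2828, 785), (2830, 785), (2848, 785), (2850, 785), (2852, 785), (2854, 785), (2856, 785),
  (2858, 785), (2860, 785), (2862, 785), (2880, 785), (2882, 785), (2884, 785), (2886, 785),
  (2888, 785), (2890, 785), (2892, 785), (2894, 785), (2912, 785), (2914, 785), (2916, 785),
  (2920, 785), (2922, 785), (2924, 785), (2944, 785), (2946, 785), (2948, 785), (2950, 785),
  (2976, 785), (2978, 785), (2980, 785), (2982, 785), (3008, 785), (3010, 785), (3012, 785),
  (3014, 785), (3040, 785), (3042, 785), (3044, 785), (3242, 3259), (3246, 3259), (3306, 3259),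
  (3362, 1331), (3366, 1331), (3370, 1331), (3374, 1331), (3426, 1331), (3434, 1331), (3490,
  1331), (3494, 1331), (3554, 1331), (3720, 2713), (3722, 2713), (3724, 2713), (3726, 2713),
  (3752, 2713), (3756, 2713), (3784, 2713), (3786, 2713), (3816, 2713), (3840, 785), (3842,
  785), (3844, 785), (3846, 785), (3848, 785), (3850, 785), (3852, 785), (3854, 785), (3872,
  785), (3876, 785), (3880, 785), (3884, 785), (3904, 785), (3906, 785), (3912, 785), (3914,
  785), (3936, 785), (3944, 785), (3968, 785), (3970, 785), (3972, 785), (3974, 785), (4000,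
  785), (4004, 785), (4032, 785), (4034, 785), (4064, 785)]

def SL : List ℕ :=
  [0, 2, 4, 6, 8, 10, 12, 14, 32, 34, 36, 38, 40, 42, 44, 46, 64, 66, 68, 70, 72, 74, 76, 78,
  96, 98, 100, 102, 104, 106, 108, 110, 128, 130, 132, 134, 136, 138, 140, 142, 160, 162, 164,
  166, 168, 170, 172, 174, 192, 194, 196, 198, 200, 202, 204, 206, 224, 226, 228, 230, 232,
  234, 236, 238, 256, 258, 260, 262, 288, 290, 292, 294, 320, 322, 324, 326, 352, 354, 356,
  358, 512, 516, 520, 524, 576, 580, 584, 588, 640, 644, 648, 652, 704, 708, 712, 716, 768,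
  1024, 1026, 1028, 1032, 1034, 1036, 1056, 1058, 1064, 1066, 1088, 1092, 1096, 1100, 1152,
  1154, 1156, 1160, 1162, 1164, 1184, 1186, 1192, 1194, 1216, 1220, 1224, 1228, 1280, 1282,
  1312, 1314, 1536, 1540, 1544, 1548, 1600, 1604, 1608, 1612, 1664, 1668, 1672, 1676, 1728,
  1732, 1736, 1740, 2048, 2050, 2052, 2054, 2056, 2058, 2080, 2082, 2084, 2086, 2088, 2090,
  2112, 2114, 2116, 2118, 2144, 2146, 2148, 2150, 2176, 2178, 2184, 2186, 2208, 2210, 2216,
  2218, 2304, 2306, 2308, 2310, 2336, 2338, 2340, 2342, 2368, 2370, 2372, 2374, 2400, 2402,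
  2404, 2406, 2560, 2568, 2688, 2696, 3072, 3074, 3080, 3082, 3104, 3106, 3112, 3114, 3200,
  3202, 3208, 3210, 3232, 3234, 3240, 3242]

def PP (s : Bool) : List (ℕ × ℕ) := cond s P1 P0

def fo (m : ℕ) : Bool := cy.all fun k => !sub k m

def st : List ℕ := [385, 515, 1030, 2060, 280, 560, 1120, 2240]

def tr (m : ℕ) : Bool := !Nat.beq m 0 &&
  st.all fun x => Nat.beq (pc 12 (m &&& x)) 0 || Nat.beq (pc 12 (m &&& x)) 2

theorem tr_eq : (List.range 4096).filter tr = L2 := by decide +kernel

theorem l2_cy : L2.filter (fun m => L2.all fun D => !sub D m || Nat.beq D m) = cy := by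
  decide +kernel

theorem l2_lt : ∀ m ∈ L2, m < 4096 := by decide +kernel
theorem cy_lt : ∀ m ∈ cy, m < 4096 := by decide +kernel

def okp (s : Bool) (A K : ℕ) : Bool := sub 17 K && sub K (A ||| 17) &&
  (!s || cy.all fun D => !sub D (A ||| 17) || Nat.beq D K)

theorem pp_in : ∀ s : Bool, ((List.range 4096).filter fun A => Nat.beq (A &&& 17) 0 && fo A).flatMap
    (fun A => (cy.filter (okp s A)).map fun K => (A, K)) = PP s := by decide +kernel

theorem pp_out : ∀ s : Bool, ∀ p ∈ PP s, p.1 < 4096 ∧ fo p.1 = true ∧ p.1 &&& 17 = 0 ∧ p.2 ∈ cy ∧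
    sub 17 p.2 = true ∧ sub p.2 (p.1 ||| 17) = true ∧
    ∀ D ∈ cy, sub D (p.1 ||| 17) = true → (s = true ∨ sub 17 D = true) → D = p.2 := by
  decide +kernel

theorem pp_srt : ∀ s : Bool, ((PP s).map Prod.fst).IsChain (· < ·) := by decide +kernel

theorem sl_eq : ((List.range 4096).filter fun S => Nat.beq (S &&& 17) 0 &&
    cy.any fun K => sub (S ||| 17) K) = SL := by decide +kernel

theorem sl_lt : ∀ S ∈ SL, S < 4096 := by decide +kernel

def T (s : Bool) (Q U : ℕ) : List (ℕ × ℕ × ℕ) :=
  SL.flatMap fun S => (((PP s).filter fun p => sub S p.2).filter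
    fun p => sub Q p.1 && sub p.1 U).flatMap fun p =>
      ((((PP s).filter fun q => sub S q.2).filter
        fun q => Nat.beq (q.1 ^^^ (q.1 &&& S)) (Q ||| (U ^^^ (U &&& p.1)))).map
          fun q => (S, p.2, q.2))

def z (m : ℕ) : ℤ := cond (fo m) 1 0
def ze (m : ℕ) : ℤ := cond (m.testBit 0) 0 (z (1 ||| m))
def zf (m : ℕ) : ℤ := cond (m.testBit 4) 0 (z (16 ||| m))
def zef (m : ℕ) : ℤ := cond (m.testBit 0) 0 (zf (1 ||| m))

def lhs (Q U : ℕ) : ℤ := ∑ X ∈ range 4096, cond (sub Q X && sub X U)
  (ze X * zf (Q ||| (U ^^^ (U &&& X))) - z X * zef (Q ||| (U ^^^ (U &&& X)))) 0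

def dg (t : ℕ × ℕ × ℕ) : Bool := Nat.beq t.2.1 t.2.2

theorem l0 : lhs 34 2542 = -2 := by decide +kernel
theorem d0 : (T true 34 2542).countP dg = 0 ∧ (T true 34 2542).filter (fun t => !dg t) =
  [(68, 255, 2423), (68, 2423, 255)] := by decide +kernel

theorem l1 : lhs 136 1774 = -2 := by decide +kernel
theorem d1 : (T true 136 1774).countP dg = 0 ∧ (T true 136 1774).filter (fun t => !dg t) =
  [(68, 255, 1757), (68, 1757, 255)] := by decide +kernel

theorem l2 : lhs 170 3310 = -2 := by decide +kernel
theorem d2 : (T true 170 3310).countP dg = 0 ∧ (T true 170 3310).filter (fun t => !dg t) =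
  [(0, 255, 3259), (0, 3259, 255)] := by decide +kernel

theorem l3 : lhs 648 4010 = 12 := by decide +kernel
theorem d3 : (T true 648 4010).countP dg = 0 ∧ (T true 648 4010).filter (fun t => !dg t) =
  [(0, 785, 2713), (0, 785, 2713), (0, 785, 2713), (0, 785, 2713), (0, 785, 2713), (0, 785,
  2713), (0, 2713, 785), (0, 2713, 785), (0, 2713, 785), (0, 2713, 785), (0, 2713, 785), (0,
  2713, 785)] := by decide +kernel

theorem l4 : lhs 290 1830 = 4 := by decide +kernel
theorem d4 : (T true 290 1830).countP dg = 0 ∧ (T true 290 1830).filter (fun t => !dg t) =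
  [(0, 785, 1331), (0, 785, 1331), (0, 1331, 785), (0, 1331, 785)] := by decide +kernel

theorem l5 : lhs 4 4070 = 22 := by decide +kernel
theorem d5 : (T true 4 4070).countP dg = 12 ∧ (T true 4 4070).filter (fun t => !dg t) =
  [(256, 785, 1331), (256, 1331, 785), (256, 1331, 785), (256, 1331, 785), (256, 785, 2423),
  (256, 2423, 785), (256, 785, 1331), (256, 785, 1331), (256, 785, 1331), (256, 1331, 785)] := by decide +kernel

theorem l6 : lhs 192 4046 = 6 := by decide +kernel
theorem d6 : (T true 192 4046).countP dg = 0 ∧ (T true 192 4046).filter (fun t => !dg t) =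
  [(512, 785, 2713), (512, 1757, 785), (512, 785, 2713), (512, 2713, 785), (512, 785, 1757),
  (512, 2713, 785)] := by decide +kernel

theorem l7 : lhs 0 4078 = 74 := by decide +kernel
theorem d7 : (T true 0 4078).countP dg = 28 ∧ (T true 0 4078).filter (fun t => !dg t) =
  [(0, 255, 785), (0, 785, 3259), (0, 1331, 2713), (0, 1331, 2713), (0, 1331, 2713), (0, 1331,
  2713), (0, 2713, 1331), (0, 2713, 1331), (0, 2713, 1331), (0, 2713, 1331), (0, 3259, 785),
  (0, 785, 255), (68, 1757, 2423), (68, 2423, 1757), (256, 785, 1331), (256, 785, 1331), (256,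
  785, 1331), (256, 785, 1331), (256, 785, 1331), (256, 1331, 785), (256, 1331, 785), (256,
  1331, 785), (256, 1331, 785), (256, 1331, 785), (256, 785, 2423), (256, 2423, 785), (256,
  785, 1331), (256, 785, 1331), (256, 785, 1331), (256, 785, 1331), (256, 785, 1331), (256,
  1331, 785), (256, 1331, 785), (256, 1331, 785), (256, 1331, 785), (256, 1331, 785), (512,
  785, 2713), (512, 785, 2713), (512, 785, 2713), (512, 785, 2713), (512, 785, 2713), (512,
  1757, 785), (512, 785, 2713), (512, 785, 2713), (512, 785, 2713), (512, 785, 2713), (512,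
  785, 2713), (512, 2713, 785), (512, 2713, 785), (512, 2713, 785), (512, 2713, 785), (512,
  2713, 785), (512, 785, 1757), (512, 2713, 785), (512, 2713, 785), (512, 2713, 785), (512,
  2713, 785), (512, 2713, 785), (1024, 1757, 1331), (1024, 1331, 1757), (2048, 2423, 2713),
  (2048, 2713, 2423)] := by decide +kernel

theorem l8 : lhs 494 494 = 0 := by decide +kernel
theorem d8 : (T false 494 494).countP dg = 1 ∧ (T false 494 494).filter (fun t => !dg t) = [] := by
  decide +kernel

end Pool.Agent.H.MP_b10ab5_co
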