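import Pool.Agent.H.MP_b10ab5_co.B

set_option autoImplicit false
set_option maxRecDepth 100000

namespace Pool.Agent.H.MP_b10ab5_co

open Finset MvPolynomial Pool.Agent.Lib.helper1.Mask

def star : Fin 8 → ℕ := ![385, 515, 1030, 2060, 280, 560, 1120, 2240]

theorem star_iff : ∀ (v : Fin 8) (g : Fin 12),
    ((ends g).1 = v ∨ (ends g).2 = v) ↔ g ∈ f 12 (star v) := by decide +kernel

theorem noloop : ∀ g : Fin 12, (ends g).1 ≠ (ends g).2 := by decide +kernel

theorem deg_eq (m : ℕ) (v : Fin 8) : deg ends (f 12 m) v = pc 12 (m &&& star v) := by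
  rw [← card_f, f_and, deg, ← card_union_of_disjoint, ← filter_or]
  · congr 1
    ext g
    simp only [mem_filter, mem_inter, star_iff]
  · rw [disjoint_filter]
    intro g _ h1 h2
    exact noloop g (h1.trans h2.symm)

theorem sub_iff {a b : ℕ} (ha : a < 4096) : f 12 a ⊆ f 12 b ↔ sub a b = true :=
  ⟨f_sub (n := 12) ha, sub_f⟩

theorem finj {a b : ℕ} (ha : a < 4096) (hb : b < 4096) : f 12 a = f 12 b ↔ a = b :=
  ⟨f_inj (n := 12) ha hb, fun h => h ▸ rfl⟩

theorem fsurj (σ : Finset (Fin 12)) : ∃ m < 4096, f 12 m = σ := f_surj σ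

theorem f_zero : f 12 0 = ∅ := by ext; simp [mem_f]

theorem tr_iff {m : ℕ} (hm : m < 4096) : TwoReg ends (f 12 m) ↔ m ∈ L2 := by
  rw [← tr_eq, List.mem_filter, List.mem_range, TwoReg]
  simp only [deg_eq, nonempty_iff_ne_empty, ← f_zero, Ne, finj hm (by norm_num : 0 < 4096)]
  have : m.beq 0 = false ↔ ¬ m = 0 := by cases m <;> simp [Nat.beq]
  simp [tr, st, star, hm, Fin.forall_fin_succ, this]

theorem cyc_iff {m : ℕ} (hm : m < 4096) : IsCycle ends (f 12 m) ↔ m ∈ cy := by
  rw [← l2_cy, List.mem_filter, IsCycle, tr_iff hm]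
  refine and_congr_right fun _ => ?_
  simp only [List.all_eq_true, Bool.or_eq_true, Bool.not_eq_true', Nat.beq_eq]
  constructor
  · intro h D hD
    by_cases c : sub D m = true
    · right
      have := h (f 12 D) (sub_f c) ((tr_iff (l2_lt D hD)).2 hD)
      exact (finj (l2_lt D hD) hm).1 this
    · left; simpa using c
  · intro h D hD hT
    obtain ⟨d, hd, rfl⟩ := fsurj D
    rcases h d ((tr_iff hd).1 hT) with c | c
    · rw [(sub_iff hd).1 hD] at c; cases c
    · rw [c]

theorem cyc_all (P : Finset (Fin 12) → Prop) :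
    (∀ D, IsCycle ends D → P D) ↔ ∀ d ∈ cy, P (f 12 d) := by
  constructor
  · intro h d hd; exact h _ ((cyc_iff (cy_lt d hd)).2 hd)
  · intro h D hD
    obtain ⟨d, hd, rfl⟩ := fsurj D
    exact h d ((cyc_iff hd).1 hD)

theorem for_iff (m : ℕ) : IsForest ends (f 12 m) ↔ fo m = true := by
  have : IsForest ends (f 12 m) ↔ ∀ D, IsCycle ends D → ¬ D ⊆ f 12 m :=
    ⟨fun h D h1 h2 => h D h2 h1, fun h D h1 h2 => h D h2 h1⟩
  rw [this, cyc_all, fo, List.all_eq_true]
  refine forall_congr' fun d => forall_congr' fun hd => ?_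
  rw [sub_iff (cy_lt d hd)]; simp

theorem f17 : f 12 17 = {0, 4} := by decide +kernel

theorem f_ef (m : ℕ) : f 12 m ∪ {0, 4} = f 12 (m ||| 17) := by rw [f_or, f17]

theorem not_ef (m : ℕ) : ((0 : Fin 12) ∉ f 12 m ∧ (4 : Fin 12) ∉ f 12 m) ↔ m &&& 17 = 0 := by
  rw [← finj (a := m &&& 17) (Nat.and_le_right.trans_lt (by norm_num)) (by norm_num), f_and, f17,
    f_zero, ← disjoint_iff_inter_eq_empty]
  simp

theorem or_lt {m : ℕ} (hm : m < 4096) : m ||| 17 < 4096 :=
  Nat.or_lt_two_pow (n := 12) hm (by norm_num)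

theorem inS_iff {m : ℕ} (hm : m < 4096) : InS ends 0 4 (f 12 m) ↔ m ∈ SL := by
  rw [← sl_eq, List.mem_filter, List.mem_range, InS, ← and_assoc, not_ef, f_ef]
  simp only [hm, true_and, Bool.and_eq_true, Nat.beq_eq, List.any_eq_true]
  refine and_congr_right fun _ => ⟨?_, ?_⟩
  · rintro ⟨K, h1, h2⟩
    obtain ⟨k, hk, rfl⟩ := fsurj K
    exact ⟨k, (cyc_iff hk).1 h1, (sub_iff (or_lt hm)).1 h2⟩
  · rintro ⟨k, h1, h2⟩
    exact ⟨_, (cyc_iff (cy_lt k h1)).2 h1, sub_f h2⟩

theorem inA_iff (s : Bool) {S A K : ℕ} (hS : S < 4096) (hA : A < 4096) (hK : K < 4096) :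
    InA ends 0 4 s (f 12 S) (f 12 A) (f 12 K) ↔ (A, K) ∈ PP s ∧ sub S K = true := by
  constructor
  · rintro ⟨h1, h2, h3, h4, h5, h6, h7⟩
    refine ⟨?_, (sub_iff hS).1 (subset_union_left.trans h5)⟩
    rw [← pp_in, List.mem_flatMap]
    refine ⟨A, ?_, ?_⟩
    · rw [List.mem_filter, List.mem_range]
      refine ⟨hA, ?_⟩
      simp only [Bool.and_eq_true, Nat.beq_eq]
      exact ⟨(not_ef A).1 ⟨h2, h3⟩, (for_iff A).1 h1⟩
    · rw [List.mem_map]
      refine ⟨K, ?_, rfl⟩
      rw [List.mem_filter]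
      refine ⟨(cyc_iff hK).1 h4, ?_⟩
      rw [f_ef] at h6 h7
      simp only [okp, Bool.and_eq_true, Bool.or_eq_true, List.all_eq_true, Bool.not_eq_true',
        Nat.beq_eq]
      refine ⟨⟨(sub_iff (by norm_num)).1 (by rw [f17]; exact subset_union_right.trans h5),
        (sub_iff hK).1 h6⟩, ?_⟩
      cases s
      · exact Or.inl rfl
      · right
        intro D hD
        by_cases c : sub D (A ||| 17) = true
        · right
          exact (finj (cy_lt D hD) hK).1
            (h7 _ ((cyc_iff (cy_lt D hD)).2 hD) (sub_f c) (Or.inl rfl))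
        · left; simpa using c
  · rintro ⟨hp, hs⟩
    obtain ⟨_, a1, a2, a3, a4, a5, a6⟩ := pp_out s _ hp
    have b := (not_ef A).2 a2
    refine ⟨(for_iff A).2 a1, b.1, b.2, (cyc_iff hK).2 a3, union_subset (sub_f hs) ?_, ?_, ?_⟩
    · rw [← f17]; exact sub_f a4
    · rw [f_ef]; exact sub_f a5
    · rw [f_ef]
      refine (cyc_all fun D => D ⊆ f 12 (A ||| 17) → (s = true ∨ f 12 S ∪ {0, 4} ⊆ D) →
        D = f 12 K).2 fun d hd h1 h2 => ?_
      rw [a6 d hd ((sub_iff (cy_lt d hd)).1 h1) (h2.imp id fun h =>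
        (sub_iff (by norm_num)).1 (by rw [f17]; exact subset_union_right.trans h))]

theorem sum_list {α β : Type} [DecidableEq α] (T : Finset α) (l : List β) (g : β → α)
    (hn : (l.map g).Nodup) (hT : ∀ x, x ∈ T ↔ x ∈ l.map g) (φ : α → ℤ) :
    ∑ x ∈ T, φ x = (l.map fun b => φ (g b)).sum := by
  have : T = (l.map g).toFinset := by ext x; rw [hT, List.mem_toFinset]
  rw [this, List.sum_toFinset _ hn, List.map_map]; rfl

theorem sum_flat {α β : Type} (l : List α) (g : α → List β) (φ : β → ℤ) :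
    ((l.flatMap g).map φ).sum = (l.map fun a => ((g a).map φ).sum).sum := by
  induction l with
  | nil => rfl
  | cons a l ih => simp [List.flatMap_cons, ih]

theorem sum_filt {α : Type} (l : List α) (P : α → Bool) (φ : α → ℤ) :
    ((l.filter P).map φ).sum = (l.map fun a => if P a = true then φ a else 0).sum := by
  induction l with
  | nil => rfl
  | cons a l ih => by_cases h : P a = true <;> simp [h, ih]

theorem f_sd (a b : ℕ) : f 12 (a ^^^ (a &&& b)) = f 12 a \ f 12 b := by
  ext i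
  simp only [mem_f, mem_sdiff, Nat.testBit_xor, Nat.testBit_and]
  cases a.testBit i <;> cases b.testBit i <;> simp

theorem sd_lt {a : ℕ} (b : ℕ) (ha : a < 4096) : a ^^^ (a &&& b) < 4096 :=
  Nat.xor_lt_two_pow (n := 12) ha (Nat.and_le_left.trans_lt ha)

theorem pp_nd (s : Bool) (P : ℕ × ℕ → Bool) :
    (((PP s).filter P).map fun p => (f 12 p.1, f 12 p.2)).Nodup := by
  have h1 : ((PP s).map Prod.fst).Nodup :=
    ((List.isChain_iff_pairwise.1 (pp_srt s)).imp fun h => ne_of_lt h)
  refine List.Nodup.map_on ?_ ((List.Nodup.of_map _ h1).filter _)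
  intro x hx y hy h
  have hx := pp_out s x (List.mem_of_mem_filter hx)
  have hy := pp_out s y (List.mem_of_mem_filter hy)
  have e := Prod.ext_iff.1 h
  exact Prod.ext ((finj hx.1 hy.1).1 e.1) ((finj (cy_lt _ hx.2.2.2.1) (cy_lt _ hy.2.2.2.1)).1 e.2)

theorem sl_nd : (SL.map (f 12)).Nodup := by
  refine List.Nodup.map_on (fun x hx y hy h => (finj (sl_lt x hx) (sl_lt y hy)).1 h) ?_
  rw [← sl_eq]; exact List.nodup_range.filter _

open Classical in
theorem rhs_eq (s : Bool) (c : Finset (Fin 12) → Finset (Fin 12) → ℤ) {Q U : ℕ} (hQ : Q < 4096)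
    (hU : U < 4096) (h : sub Q U = true) :
    coeff (ind (f 12 Q) + ind (f 12 U)) (∑ S ∈ univ.filter (InS ends 0 4), y S *
      (∑ p ∈ univ.filter (fun p : Finset (Fin 12) × Finset (Fin 12) => InA ends 0 4 s S p.1 p.2),
        MvPolynomial.C (c S p.2) * y (p.1 \ S)) ^ 2) =
    ((T s Q U).map fun t => c (f 12 t.1) (f 12 t.2.1) * c (f 12 t.1) (f 12 t.2.2)).sum := by
  rw [coeff_sum, sum_list _ SL (f 12) sl_nd, T, sum_flat]
  · congr 1
    refine List.map_congr_left fun S hS => ?_
    have hS' := sl_lt S hS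
    have hT : ∀ x : Finset (Fin 12) × Finset (Fin 12),
        x ∈ univ.filter (fun p : Finset (Fin 12) × Finset (Fin 12) =>
          InA ends 0 4 s (f 12 S) p.1 p.2) ↔
        x ∈ ((PP s).filter fun p => sub S p.2).map fun p => (f 12 p.1, f 12 p.2) := by
      rintro ⟨A, K⟩
      obtain ⟨a, ha, rfl⟩ := fsurj A
      obtain ⟨k, hk, rfl⟩ := fsurj K
      rw [mem_filter, inA_iff s hS' ha hk, List.mem_map]
      constructor
      · rintro ⟨_, h1, h2⟩
        exact ⟨(a, k), List.mem_filter.2 ⟨h1, h2⟩, rfl⟩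
      · rintro ⟨p, hp, e⟩
        have hp' := List.mem_filter.1 hp
        have hx := pp_out s p hp'.1
        have e := Prod.ext_iff.1 e
        have e1 := (finj hx.1 ha).1 e.1
        have e2 := (finj (cy_lt _ hx.2.2.2.1) hk).1 e.2
        subst e1 e2
        exact ⟨mem_univ _, hp'.1, hp'.2⟩
    rw [coeff_sq (f 12 S) _ (c (f 12 S)) _ (sub_f h), sum_list _ _ _ (pp_nd s _) hT, sum_flat,
      sum_filt _ (fun p : ℕ × ℕ => sub Q p.1 && sub p.1 U)]
    · congr 1
      refine List.map_congr_left fun p hp => ?_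
      have hx := pp_out s p (List.mem_of_mem_filter hp)
      rw [sum_list _ _ _ (pp_nd s _) hT, List.map_map, sum_filt _ (fun q : ℕ × ℕ =>
        Nat.beq (q.1 ^^^ (q.1 &&& S)) (Q ||| (U ^^^ (U &&& p.1))))]
      simp only [sub_iff hQ, sub_iff hx.1, Bool.and_eq_true]
      split_ifs with hc
      · congr 1
        refine List.map_congr_left fun q hq => ?_
        have hy := pp_out s q (List.mem_of_mem_filter hq)
        simp only [hc, true_and, ← f_sd, ← f_or, Nat.beq_eq, Function.comp]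
        simp only [finj (sd_lt S hy.1) (Nat.or_lt_two_pow (n := 12) hQ (sd_lt p.1 hU))]
      · simp [hc]
    · intro p hp
      obtain ⟨_, _, _, _, h5, h6, _⟩ := (mem_filter.1 hp).2
      obtain ⟨a1, a2, _⟩ := (inS_iff hS').2 hS
      intro g hg
      have := h6 (h5 (mem_union_left _ hg))
      rcases mem_union.1 this with t | t
      · exact t
      · simp only [mem_insert, mem_singleton] at t
        rcases t with rfl | rfl
        · exact absurd hg a1
        · exact absurd hg a2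
  · intro S
    obtain ⟨m, hm, rfl⟩ := fsurj S
    rw [mem_filter, inS_iff hm, List.mem_map]
    constructor
    · rintro ⟨_, h1⟩; exact ⟨m, h1, rfl⟩
    · rintro ⟨k, hk, e⟩
      rw [← (finj (sl_lt k hk) hm).1 e]; exact ⟨mem_univ _, hk⟩

theorem fi_eq (m : ℕ) : fi ends (f 12 m) = z m := by
  unfold fi z
  by_cases h : fo m = true
  · rw [if_pos ((for_iff m).2 h), h]; rfl
  · rw [if_neg (fun t => h ((for_iff m).1 t))]
    simp at h; rw [h]; rfl

theorem ins0 (m : ℕ) : insert (0 : Fin 12) (f 12 m) = f 12 (1 ||| m) := by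
  rw [f_or, insert_eq]; congr 1
theorem ins4 (m : ℕ) : insert (4 : Fin 12) (f 12 m) = f 12 (16 ||| m) := by
  rw [f_or, insert_eq]; congr 1

theorem ze_eq (m : ℕ) : dd 0 (fi ends) (f 12 m) = ze m := by
  unfold dd ze; rw [ins0, fi_eq]; simp only [mem_f]; cases h : m.testBit 0 <;> simp [h]
theorem zf_eq (m : ℕ) : dd 4 (fi ends) (f 12 m) = zf m := by
  unfold dd zf; rw [ins4, fi_eq]; simp only [mem_f]; cases h : m.testBit 4 <;> simp [h]
theorem zef_eq (m : ℕ) : dd 0 (dd 4 (fi ends)) (f 12 m) = zef m := by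
  rw [dd, zef, ins0, zf_eq]; simp only [mem_f]; cases h : m.testBit 0 <;> simp [h]

theorem lhs_eq {Q U : ℕ} (hQ : Q < 4096) (h : sub Q U = true) :
    coeff (ind (f 12 Q) + ind (f 12 U)) (rayleigh ends 0 4) = lhs Q U := by
  rw [coeff_ray _ _ _ (sub_f h), lhs]
  symm
  refine sum_bij (fun m _ => f 12 m) (fun _ _ => mem_univ _) ?_ ?_ ?_
  · intro a ha b hb e; exact (finj (mem_range.1 ha) (mem_range.1 hb)).1 e
  · intro X _
    obtain ⟨m, hm, rfl⟩ := fsurj X
    exact ⟨m, mem_range.2 hm, rfl⟩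
  · intro m hm
    simp only [← f_sd, ← f_or, ze_eq, zf_eq, zef_eq, fi_eq, sub_iff hQ, sub_iff (mem_range.1 hm)]
    cases sub Q m <;> cases sub m U <;> simp

theorem sum_dg (x : ℕ → ℕ → ℤ) (hx : ∀ a b, x a b * x a b = 1) (l : List (ℕ × ℕ × ℕ)) :
    (l.map fun t => x t.1 t.2.1 * x t.1 t.2.2).sum =
      l.countP dg + ((l.filter fun t => !dg t).map fun t => x t.1 t.2.1 * x t.1 t.2.2).sum := by
  induction l with
  | nil => simp
  | cons t l ih =>
    by_cases h : dg t = true
    · have e : t.2.1 = t.2.2 := by simpa [dg] using h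
      simp only [List.map_cons, List.sum_cons, ih, List.countP_cons, h, List.filter_cons]
      rw [e, hx]; simp; ring
    · simp only [List.map_cons, List.sum_cons, ih, List.countP_cons, h, List.filter_cons]
      simp; ring

theorem key (s : Bool) (h : SOS ends 0 4 s) : ∃ x : ℕ → ℕ → ℤ, (∀ a b, x a b = 1 ∨ x a b = -1) ∧
    ∀ Q U, Q < 4096 → U < 4096 → sub Q U = true → lhs Q U = (T s Q U).countP dg +
      (((T s Q U).filter fun t => !dg t).map fun t => x t.1 t.2.1 * x t.1 t.2.2).sum := by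
  obtain ⟨c, hc, e⟩ := h
  refine ⟨fun a b => c (f 12 a) (f 12 b), fun a b => hc _ _, fun Q U hQ hU h => ?_⟩
  rw [← lhs_eq hQ h, e, rhs_eq s c hQ hU h]
  exact sum_dg (fun a b => c (f 12 a) (f 12 b))
    (fun a b => by rcases hc (f 12 a) (f 12 b) with t | t <;> simp [t]) _

theorem not_sos (s : Bool) : ¬ SOS ends 0 4 s := by
  intro h
  obtain ⟨x, hx, k⟩ := key s h
  cases s
  · have := k 494 494 (by norm_num) (by norm_num) (by decide)
    rw [l8, d8.1, d8.2] at this
    simp at this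
  · have e0 := k 34 2542 (by norm_num) (by norm_num) (by decide)
    have e1 := k 136 1774 (by norm_num) (by norm_num) (by decide)
    have e2 := k 170 3310 (by norm_num) (by norm_num) (by decide)
    have e3 := k 648 4010 (by norm_num) (by norm_num) (by decide)
    have e4 := k 290 1830 (by norm_num) (by norm_num) (by decide)
    have e5 := k 4 4070 (by norm_num) (by norm_num) (by decide)
    have e6 := k 192 4046 (by norm_num) (by norm_num) (by decide)
    have e7 := k 0 4078 (by norm_num) (by norm_num) (by decide)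
    rw [l0, d0.1, d0.2] at e0
    rw [l1, d1.1, d1.2] at e1
    rw [l2, d2.1, d2.2] at e2
    rw [l3, d3.1, d3.2] at e3
    rw [l4, d4.1, d4.2] at e4
    rw [l5, d5.1, d5.2] at e5
    rw [l6, d6.1, d6.2] at e6
    rw [l7, d7.1, d7.2] at e7
    simp only [List.map_cons, List.sum_cons, List.map_nil, List.sum_nil] at e0 e1 e2 e3 e4 e5 e6 e7
    push_cast at e0 e1 e2 e3 e4 e5 e6 e7
    have bd : ∀ a b c, -1 ≤ x a b * x a c ∧ x a b * x a c ≤ 1 := by
      intro a b c
      rcases hx a b with t | t <;> rcases hx a c with u | u <;> simp [t, u]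
    have a1 : x 68 1757 * x 68 2423 = 1 := by
      rcases hx 68 255 with t | t <;> rcases hx 68 1757 with u | u <;>
        rcases hx 68 2423 with w | w <;> simp [t, u, w] at e0 e1 ⊢
    have a2 : x 0 255 * x 0 785 + x 0 785 * x 0 3259 = 0 := by
      rcases hx 0 255 with t | t <;> rcases hx 0 785 with u | u <;>
        rcases hx 0 3259 with w | w <;> simp [t, u, w] at e2 ⊢
    have a3 : x 0 1331 * x 0 2713 = 1 := by
      rcases hx 0 1331 with t | t <;> rcases hx 0 785 with u | u <;>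
        rcases hx 0 2713 with w | w <;> simp [t, u, w] at e3 e4 ⊢
    have b1 := bd 256 785 1331
    have b2 := bd 256 785 2423
    have b3 := bd 512 785 2713
    have b4 := bd 512 785 1757
    have b5 := bd 1024 1757 1331
    have b6 := bd 2048 2423 2713
    linarith [b1.1, b1.2, b2.1, b2.2, b3.1, b3.2, b4.1, b4.2, b5.1, b5.2, b6.1, b6.2]

end Pool.Agent.H.MP_b10ab5_co
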