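import Mathlib

set_option autoImplicit false

namespace Pool.Agent.H.MP_b10ab5_co

open Finset

variable {V E : Type} [Fintype E] [DecidableEq E] [DecidableEq V]

/-- number of ends of edges of `K` at the vertex `v` -/
def deg (ends : E → V × V) (K : Finset E) (v : V) : ℕ :=
  (K.filter fun g => (ends g).1 = v).card + (K.filter fun g => (ends g).2 = v).card

def TwoReg (ends : E → V × V) (K : Finset E) : Prop :=
  K.Nonempty ∧ ∀ v, deg ends K v = 0 ∨ deg ends K v = 2

def IsCycle (ends : E → V × V) (K : Finset E) : Prop :=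
  TwoReg ends K ∧ ∀ D ⊆ K, TwoReg ends D → D = K

def IsForest (ends : E → V × V) (X : Finset E) : Prop :=
  ∀ K ⊆ X, ¬ IsCycle ends K

noncomputable def y (X : Finset E) : MvPolynomial E ℤ := ∏ g ∈ X, MvPolynomial.X g

open Classical in
noncomputable def forestPoly (ends : E → V × V) : MvPolynomial E ℤ :=
  ∑ X ∈ univ.filter (IsForest ends), y X

noncomputable def rayleigh (ends : E → V × V) (e f : E) : MvPolynomial E ℤ :=
  MvPolynomial.pderiv e (forestPoly ends) * MvPolynomial.pderiv f (forestPoly ends) -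
    forestPoly ends * MvPolynomial.pderiv e (MvPolynomial.pderiv f (forestPoly ends))

def InS (ends : E → V × V) (e f : E) (S : Finset E) : Prop :=
  e ∉ S ∧ f ∉ S ∧ ∃ K, IsCycle ends K ∧ S ∪ {e, f} ⊆ K

def InA (ends : E → V × V) (e f : E) (strict : Bool) (S A K : Finset E) : Prop :=
  IsForest ends A ∧ e ∉ A ∧ f ∉ A ∧ IsCycle ends K ∧ S ∪ {e, f} ⊆ K ∧ K ⊆ A ∪ {e, f} ∧
    ∀ D, IsCycle ends D → D ⊆ A ∪ {e, f} → (strict = true ∨ S ∪ {e, f} ⊆ D) → D = K

open Classical in
def SOS (ends : E → V × V) (e f : E) (strict : Bool) : Prop :=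
  ∃ c : Finset E → Finset E → ℤ, (∀ S K, c S K = 1 ∨ c S K = -1) ∧
    rayleigh ends e f = ∑ S ∈ univ.filter (InS ends e f), y S *
      (∑ p ∈ univ.filter (fun p : Finset E × Finset E => InA ends e f strict S p.1 p.2),
        MvPolynomial.C (c S p.2) * y (p.1 \ S)) ^ 2

end Pool.Agent.H.MP_b10ab5_co
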